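import Pool.Agent.helper64.PB.SpecW

set_option autoImplicit false

namespace Pool.Agent.PB

theorem GDU (hDUA : DUA_stmt) : GDU_stmt := by
  obtain ⟨hdd, _, _, hG, hstd, hmon, hprop⟩ := hDUA
  intro G hgap
  obtain ⟨c, hc⟩ := hgap
  refine ⟨c, ?_⟩
  intro n h hn hM
  have hM' : Mono (dual h) := ((hprop n h).1).2 hM
  obtain ⟨m, hm1, hm2, f, hf, h1, h2⟩ := hc n (dual h) hn hM'
  refine ⟨m, hm1, hm2, dual f, ?_, ?_, ?_⟩
  · obtain ⟨s, hs⟩ := hf
    refine ⟨s, ?_⟩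
    have h3 := hG G m (dual f) s
    rw [hdd m f] at h3
    exact h3.1 hs
  · intro s hs
    have h3 : Size std (dual h) s := (hstd n h s).2 hs
    exact (hstd m f _).2 (h1 s h3)
  · intro s hs
    have h3 := hG G m (dual f) s
    rw [hdd m f] at h3
    exact (hmon n h _).1 (h2 s (h3.2 hs))

end Pool.Agent.PB
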