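import Pool.Agent.helper64.PB.SpecL

set_option autoImplicit false

namespace Pool.Agent.PB

open Filter Asymptotics

theorem GRO : GRO_stmt := by
  intro ε c n₀ hε
  have hb : (0 : ℝ) < Real.log 2 := Real.log_pos (by norm_num)
  have h1 := isLittleO_rpow_exp_pos_mul_atTop ((c : ℝ) / ε) hb
  have h2 : Tendsto (fun n : ℕ => (n : ℝ) ^ ε) atTop atTop :=
    (tendsto_rpow_atTop hε).comp tendsto_natCast_atTop_atTop
  have h3 := h1.comp_tendsto h2
  have hC : (0 : ℝ) < 1 / (2 * (1 + c)) := by positivity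
  have h4 := h3.bound hC
  obtain ⟨n, hn1, hn2⟩ := (h4.and (eventually_ge_atTop (max n₀ 1))).exists
  refine ⟨n, le_trans (le_max_left _ _) hn2, le_trans (le_max_right _ _) hn2, ?_⟩
  have hn : 1 ≤ n := le_trans (le_max_right _ _) hn2
  have hn0 : (0 : ℝ) < n := by exact_mod_cast hn
  simp only [Function.comp_apply] at hn1
  have h5 : ((n : ℝ) ^ ε) ^ ((c : ℝ) / ε) = (n : ℝ) ^ c := by
    rw [← Real.rpow_mul hn0.le, mul_div_cancel₀ _ hε.ne', Real.rpow_natCast]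
  have h6 : Real.exp (Real.log 2 * (n : ℝ) ^ ε) = (2 : ℝ) ^ ((n : ℝ) ^ ε) := by
    exact (Real.rpow_def_of_pos (by norm_num : (0 : ℝ) < 2) _).symm
  rw [h5, h6, Real.norm_of_nonneg (by positivity), Real.norm_of_nonneg (by positivity)] at hn1
  have h7 : (1 : ℝ) ≤ (n : ℝ) ^ c := one_le_pow₀ (by exact_mod_cast hn)
  have h8 : ((n ^ c + c : ℕ) : ℝ) ≤ (1 + c) * (n : ℝ) ^ c := by
    push_cast
    have h9 : (c : ℝ) * 1 ≤ c * (n : ℝ) ^ c := mul_le_mul_of_nonneg_left h7 (Nat.cast_nonneg c)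
    linarith
  have h10 : (1 + (c : ℝ)) * (n : ℝ) ^ c ≤ (2 : ℝ) ^ ((n : ℝ) ^ ε) / 2 := by
    have h11 : (0 : ℝ) < 1 + c := by positivity
    calc (1 + (c : ℝ)) * (n : ℝ) ^ c ≤ (1 + c) * (1 / (2 * (1 + c)) * (2 : ℝ) ^ ((n : ℝ) ^ ε)) :=
          mul_le_mul_of_nonneg_left hn1 h11.le
      _ = (2 : ℝ) ^ ((n : ℝ) ^ ε) / 2 := by
          field_simp
  have h12 : (0 : ℝ) < (2 : ℝ) ^ ((n : ℝ) ^ ε) := by positivity
  linarith

end Pool.Agent.PB
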