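import Pool.Agent.helper64.PB.SpecF

set_option autoImplicit false

namespace Pool.Agent.PB

open Finset

/-- a bit as an element of the field with two elements -/
def LAF_Z (b : Bool) : ZMod 2 := if b = true then 1 else 0

/-- the bit of an element of the field with two elements -/
def LAF_B (z : ZMod 2) : Bool := decide (z = 1)

theorem LAF_BZ (b : Bool) : LAF_B (LAF_Z b) = b := by
  cases b <;> decide

theorem LAF_ZB (z : ZMod 2) : LAF_Z (LAF_B z) = z := by
  revert z
  decide

theorem LAF_Zinj (a b : Bool) (h : LAF_Z a = LAF_Z b) : a = b := by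
  rw [← LAF_BZ a, h, LAF_BZ]

theorem LAF_xor (a b c : Bool) : LAF_Z (xor a (xor b c)) = LAF_Z a + (LAF_Z b + LAF_Z c) := by
  cases a <;> cases b <;> cases c <;> decide

theorem LAF_and (a b : Bool) : LAF_Z (a && b) = LAF_Z a * LAF_Z b := by
  cases a <;> cases b <;> decide

theorem LAF_par {N : ℕ} (g : Fin N → Bool) : LAF_Z (par g) = ∑ j, LAF_Z (g j) := by
  have h1 : ∑ j, LAF_Z (g j) = (((univ.filter fun j => g j = true).card : ℕ) : ZMod 2) := by
    unfold LAF_Z
    rw [Finset.sum_boole]
  rw [h1]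
  unfold par
  by_cases h : Odd (univ.filter fun j => g j = true).card
  · rw [decide_eq_true h, (ZMod.natCast_eq_one_iff_odd).2 h]
    decide
  · rw [decide_eq_false h, (ZMod.natCast_eq_zero_iff_even).2 (Nat.not_odd_iff_even.1 h)]
    decide

/-- the space of differences -/
def LAF_U {N : ℕ} (W : Set (Fin N → Bool)) (w0 : Fin N → Bool) (h0 : w0 ∈ W)
    (hW : ∀ u ∈ W, ∀ v ∈ W, ∀ w ∈ W, (fun i => xor (u i) (xor (v i) (w i))) ∈ W) :
    Submodule (ZMod 2) (Fin N → ZMod 2) where
  carrier := {u | (fun i => LAF_B (LAF_Z (w0 i) + u i)) ∈ W}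
  zero_mem' := by
    show (fun i => LAF_B (LAF_Z (w0 i) + 0)) ∈ W
    have h : (fun i => LAF_B (LAF_Z (w0 i) + 0)) = w0 := by
      funext i
      rw [add_zero, LAF_BZ]
    rw [h]
    exact h0
  add_mem' := by
    intro a b ha hb
    show (fun i => LAF_B (LAF_Z (w0 i) + (a i + b i))) ∈ W
    have h := hW _ ha _ h0 _ hb
    have h1 : (fun i => LAF_B (LAF_Z (w0 i) + (a i + b i))) =
        fun i => xor (LAF_B (LAF_Z (w0 i) + a i)) (xor (w0 i) (LAF_B (LAF_Z (w0 i) + b i))) := by
      funext i
      apply LAF_Zinj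
      rw [LAF_xor, LAF_ZB, LAF_ZB, LAF_ZB]
      have h2 : ∀ x y z : ZMod 2, x + (y + z) = x + y + (x + (x + z)) := by decide
      exact h2 _ _ _
    rw [h1]
    exact h
  smul_mem' := by
    intro c a ha
    have hc : c = 0 ∨ c = 1 := by
      revert c
      decide
    rcases hc with rfl | rfl
    · show (fun i => LAF_B (LAF_Z (w0 i) + 0 * a i)) ∈ W
      have h : (fun i => LAF_B (LAF_Z (w0 i) + 0 * a i)) = w0 := by
        funext i
        rw [zero_mul, add_zero, LAF_BZ]
      rw [h]
      exact h0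
    · rw [one_smul]
      exact ha

theorem LAF_mem {N : ℕ} (W : Set (Fin N → Bool)) (w0 : Fin N → Bool) (h0 : w0 ∈ W)
    (hW : ∀ u ∈ W, ∀ v ∈ W, ∀ w ∈ W, (fun i => xor (u i) (xor (v i) (w i))) ∈ W) (v : Fin N → Bool) :
    v ∈ W ↔ (fun i => LAF_Z (v i) - LAF_Z (w0 i)) ∈ LAF_U W w0 h0 hW := by
  have h1 : v = fun i => LAF_B (LAF_Z (w0 i) + (LAF_Z (v i) - LAF_Z (w0 i))) := by
    funext i
    rw [add_sub_cancel, LAF_BZ]
  constructor
  · intro h
    rw [h1] at h
    exact h
  · intro h
    rw [h1]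
    exact h

theorem LAF : LAF_stmt := by
  intro N W hW
  rcases W.eq_empty_or_nonempty with he | ⟨w0, h0⟩
  · refine ⟨fun _ _ => false, fun _ => true, fun v => ?_⟩
    rw [he]
    constructor
    · intro h
      exact absurd h (Set.notMem_empty v)
    · intro h
      have h1 := h 0
      unfold par at h1
      simp at h1
  · obtain ⟨U', hc⟩ := Submodule.exists_isCompl (LAF_U W w0 h0 hW)
    obtain ⟨f, hf⟩ : ∃ f : (Fin N → ZMod 2) →ₗ[ZMod 2] (Fin N → ZMod 2),
        LinearMap.ker f = LAF_U W w0 h0 hW := by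
      refine ⟨U'.subtype.comp (Submodule.projectionOnto U' (LAF_U W w0 h0 hW) hc.symm), ?_⟩
      rw [LinearMap.ker_comp_of_ker_eq_bot _ (Submodule.ker_subtype _), Submodule.ker_projectionOnto]
    refine ⟨fun i j => Fin.lastCases (motive := fun _ => Bool) false
      (fun i => LAF_B (f (fun k => if j = k then 1 else 0) i)) i,
      fun i => Fin.lastCases (motive := fun _ => Bool) false
      (fun i => LAF_B (f (fun k => LAF_Z (w0 k)) i)) i, fun v => ?_⟩
    rw [LAF_mem W w0 h0 hW v, ← hf, LinearMap.mem_ker]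
    have h1 : (fun i => LAF_Z (v i) - LAF_Z (w0 i)) = (fun i => LAF_Z (v i)) - fun i => LAF_Z (w0 i) := rfl
    rw [h1, map_sub, sub_eq_zero]
    have h2 : ∀ i, f (fun k => LAF_Z (v k)) i = ∑ j, LAF_Z (v j) * f (fun k => if j = k then 1 else 0) i := by
      intro i
      rw [LinearMap.pi_apply_eq_sum_univ f, Finset.sum_apply]
      rfl
    constructor
    · intro h i
      refine Fin.lastCases ?_ (fun i => ?_) i
      · simp only [Fin.lastCases_last]
        unfold par
        simp
      · simp only [Fin.lastCases_castSucc]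
        apply LAF_Zinj
        rw [LAF_par, LAF_ZB, ← h, h2]
        refine sum_congr rfl fun j _ => ?_
        rw [LAF_and, LAF_ZB, mul_comm]
    · intro h
      funext i
      have h3 := h i.castSucc
      simp only [Fin.lastCases_castSucc] at h3
      have h4 := congrArg LAF_Z h3
      rw [LAF_par, LAF_ZB] at h4
      rw [← h4, h2]
      refine sum_congr rfl fun j _ => ?_
      rw [LAF_and, LAF_ZB, mul_comm]

end Pool.Agent.PB
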